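import Pool.Agent.H757R2.CardySD

/-! Rate of convergence of the beta-binomial(1/3,1/3) distribution function to Cardy's function. -/

namespace Pool.Agent.H980R4.Rate

open Finset MeasureTheory Pool.Agent.H757R2.CardyLimit Pool.Agent.H757R2.CardySD Pool.Agent.H31C

/-! ### Gautschi's inequality -/

theorem gam {x s : ℝ} (hx : 0 < x) (hs : 0 < s) (hs1 : s < 1) :
    Real.Gamma (x + s) ≤ Real.Gamma (x + 1) * x ^ (s - 1) := by
  have h := Real.Gamma_mul_add_mul_le_rpow_Gamma_mul_rpow_Gamma (s := x) (t := x + 1)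
    (a := 1 - s) (b := s) hx (by linarith) (by linarith) hs (by ring)
  have e : (1 - s) * x + s * (x + 1) = x + s := by ring
  rw [e, Real.Gamma_add_one hx.ne', Real.mul_rpow hx.le (Real.Gamma_pos_of_pos hx).le] at h
  rw [Real.Gamma_add_one hx.ne']
  refine h.trans (le_of_eq ?_)
  have h1 : Real.Gamma x ^ (1 - s) * Real.Gamma x ^ s = Real.Gamma x := by
    rw [← Real.rpow_add (Real.Gamma_pos_of_pos hx)]
    norm_num
  have h2 : x * x ^ (s - 1) = x ^ s := by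
    nth_rewrite 1 [← Real.rpow_one x]
    rw [← Real.rpow_add hx]
    norm_num
  calc Real.Gamma x ^ (1 - s) * (x ^ s * Real.Gamma x ^ s)
      = (Real.Gamma x ^ (1 - s) * Real.Gamma x ^ s) * x ^ s := by ring
    _ = (x * x ^ (s - 1)) * Real.Gamma x := by rw [h1, h2]; ring
    _ = _ := by ring

theorem gam2 {x s : ℝ} (hx : 0 < x) (hs : 0 < s) (hs1 : s < 1) :
    Real.Gamma (x + 1) * (x + s) ^ (s - 1) ≤ Real.Gamma (x + s) := by
  have hxs : 0 < x + s := by linarith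
  have h := gam hxs (s := 1 - s) (by linarith) (by linarith)
  have e : x + s + (1 - s) = x + 1 := by ring
  rw [e, Real.Gamma_add_one hxs.ne'] at h
  have h2 : (x + s) ^ (1 - s - 1) * (x + s) ^ (s - 1) * (x + s) = 1 := by
    nth_rewrite 3 [← Real.rpow_one (x + s)]
    rw [← Real.rpow_add hxs, ← Real.rpow_add hxs]
    have : 1 - s - 1 + (s - 1) + 1 = 0 := by ring
    rw [this, Real.rpow_zero]
  have h3 := mul_le_mul_of_nonneg_right h (Real.rpow_nonneg hxs.le (s - 1))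
  refine h3.trans (le_of_eq ?_)
  calc (x + s) * Real.Gamma (x + s) * (x + s) ^ (1 - s - 1) * (x + s) ^ (s - 1)
      = Real.Gamma (x + s) * ((x + s) ^ (1 - s - 1) * (x + s) ^ (s - 1) * (x + s)) := by ring
    _ = Real.Gamma (x + s) := by rw [h2, mul_one]

/-! ### two-sided bounds -/

/-- the total mass of the density -/
noncomputable def BB : ℝ := ∫ t in (0:ℝ)..1, gd t

theorem BB_eq : BB = Real.Gamma (1/3) ^ 2 / Real.Gamma (2/3) := int_gd.2

theorem BB_pos : 0 < BB := int_gd_pos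

theorem bw_mul (k m : ℕ) : bw (k + m) k * BB =
    (Real.Gamma (k + 1/3) / Real.Gamma (k + 1)) * (Real.Gamma (m + 1/3) / Real.Gamma (m + 1)) *
      (Real.Gamma ((k + m : ℕ) + 1) / Real.Gamma ((k + m : ℕ) + 2/3)) := by
  unfold bw
  have e : k + m - k = m := by omega
  rw [e, BB_eq, ris_eq, ris_eq, ris_eq, gamma_poch (s := 1/3) (by norm_num) k,
    gamma_poch (s := 1/3) (by norm_num) m, gamma_poch (s := 2/3) (by norm_num) (k + m),
    Real.Gamma_nat_eq_factorial, Real.Gamma_nat_eq_factorial, Real.Gamma_nat_eq_factorial]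
  have h1 : Real.Gamma (1/3) ≠ 0 := (Real.Gamma_pos_of_pos (by norm_num)).ne'
  have h2 : Real.Gamma (2/3) ≠ 0 := (Real.Gamma_pos_of_pos (by norm_num)).ne'
  have h3 : poch (2/3) (k + m) ≠ 0 := (poch_pos (by norm_num) _).ne'
  have h4 : (((k + m).choose k : ℕ) : ℝ) = (k + m).factorial / (k.factorial * m.factorial) := by
    rw [Nat.cast_add_choose]
  rw [h4]
  have h5 : ((k.factorial : ℕ) : ℝ) ≠ 0 := by exact_mod_cast k.factorial_ne_zero
  have h6 : ((m.factorial : ℕ) : ℝ) ≠ 0 := by exact_mod_cast m.factorial_ne_zero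
  field_simp

/-- lower bound -/
noncomputable def lo (k m : ℝ) : ℝ := (k + m) ^ (1/3 : ℝ) * (k + 1) ^ (-(2/3) : ℝ) * (m + 1) ^ (-(2/3) : ℝ)
/-- upper bound -/
noncomputable def hi (k m : ℝ) : ℝ := (k + m + 1) ^ (1/3 : ℝ) * k ^ (-(2/3) : ℝ) * (m - 1) ^ (-(2/3) : ℝ)

theorem rp_anti {x y : ℝ} (hx : 0 < x) (h : x ≤ y) : y ^ (-(2/3) : ℝ) ≤ x ^ (-(2/3) : ℝ) :=
  Real.rpow_le_rpow_of_nonpos hx h (by norm_num)

theorem ratio_le {x : ℝ} (hx : 1 ≤ x) : Real.Gamma (x + 1/3) / Real.Gamma (x + 1) ≤ x ^ (-(2/3) : ℝ) := by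
  have h := gam (x := x) (s := 1/3) (by linarith) (by norm_num) (by norm_num)
  have e : (1/3 - 1 : ℝ) = -(2/3) := by norm_num
  rw [e] at h
  rw [div_le_iff₀ (Real.Gamma_pos_of_pos (by linarith))]
  linarith

theorem le_ratio {x : ℝ} (hx : 1 ≤ x) : (x + 1) ^ (-(2/3) : ℝ) ≤ Real.Gamma (x + 1/3) / Real.Gamma (x + 1) := by
  have h := gam2 (x := x) (s := 1/3) (by linarith) (by norm_num) (by norm_num)
  have e : (1/3 - 1 : ℝ) = -(2/3) := by norm_num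
  rw [e] at h
  rw [le_div_iff₀ (Real.Gamma_pos_of_pos (by linarith))]
  have h1 := rp_anti (x := x + 1/3) (y := x + 1) (by linarith) (by linarith)
  have h2 := mul_le_mul_of_nonneg_right h1 (Real.Gamma_pos_of_pos (s := x + 1) (by linarith)).le
  linarith

theorem ratio3_le {x : ℝ} (hx : 1 ≤ x) :
    Real.Gamma (x + 1) / Real.Gamma (x + 2/3) ≤ (x + 1) ^ (1/3 : ℝ) := by
  have h := gam2 (x := x) (s := 2/3) (by linarith) (by norm_num) (by norm_num)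
  have e : (2/3 - 1 : ℝ) = -(1/3) := by norm_num
  rw [e, Real.rpow_neg (by linarith)] at h
  have hp : 0 < (x + 2/3) ^ (1/3 : ℝ) := Real.rpow_pos_of_pos (by linarith) _
  rw [← div_eq_mul_inv, div_le_iff₀ hp] at h
  rw [div_le_iff₀ (Real.Gamma_pos_of_pos (by linarith))]
  have h1 : (x + 2/3) ^ (1/3 : ℝ) ≤ (x + 1) ^ (1/3 : ℝ) :=
    Real.rpow_le_rpow (by linarith) (by linarith) (by norm_num)
  have h2 := mul_le_mul_of_nonneg_left h1 (Real.Gamma_pos_of_pos (s := x + 2/3) (by linarith)).le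
  linarith

theorem le_ratio3 {x : ℝ} (hx : 1 ≤ x) :
    x ^ (1/3 : ℝ) ≤ Real.Gamma (x + 1) / Real.Gamma (x + 2/3) := by
  have h := gam (x := x) (s := 2/3) (by linarith) (by norm_num) (by norm_num)
  have e : (2/3 - 1 : ℝ) = -(1/3) := by norm_num
  have hp : 0 < x ^ (1/3 : ℝ) := Real.rpow_pos_of_pos (by linarith) _
  rw [e, Real.rpow_neg (by linarith), ← div_eq_mul_inv, le_div_iff₀ hp] at h
  rw [le_div_iff₀ (Real.Gamma_pos_of_pos (by linarith))]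
  linarith

theorem bw_bounds {k m : ℕ} (hk : 1 ≤ k) (hm : 2 ≤ m) :
    lo k m ≤ bw (k + m) k * BB ∧ bw (k + m) k * BB ≤ hi k m := by
  have hk' : (1:ℝ) ≤ k := by exact_mod_cast hk
  have hm' : (2:ℝ) ≤ m := by exact_mod_cast hm
  have e : ((k + m : ℕ) : ℝ) = (k : ℝ) + m := by push_cast; ring
  rw [bw_mul, e]
  have a1 := ratio_le hk'
  have a2 := le_ratio hk'
  have b1 := ratio_le (x := (m:ℝ)) (by linarith)
  have b2 := le_ratio (x := (m:ℝ)) (by linarith)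
  have c1 := ratio3_le (x := (k:ℝ) + m) (by linarith)
  have c2 := le_ratio3 (x := (k:ℝ) + m) (by linarith)
  have b3 := rp_anti (x := (m:ℝ) - 1) (y := m) (by linarith) (by linarith)
  have p1 : 0 ≤ ((k:ℝ) + 1) ^ (-(2/3) : ℝ) := Real.rpow_nonneg (by linarith) _
  have p2 : 0 ≤ ((m:ℝ) + 1) ^ (-(2/3) : ℝ) := Real.rpow_nonneg (by linarith) _
  have p3 : 0 ≤ ((k:ℝ) + m) ^ (1/3 : ℝ) := Real.rpow_nonneg (by linarith) _
  have q1 := p1.trans a2
  have q2 := p2.trans b2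
  have q3 := p3.trans c2
  constructor
  · unfold lo
    calc ((k:ℝ) + m) ^ (1/3 : ℝ) * ((k:ℝ) + 1) ^ (-(2/3) : ℝ) * ((m:ℝ) + 1) ^ (-(2/3) : ℝ)
        = ((k:ℝ) + 1) ^ (-(2/3) : ℝ) * ((m:ℝ) + 1) ^ (-(2/3) : ℝ) * ((k:ℝ) + m) ^ (1/3 : ℝ) := by ring
      _ ≤ _ := mul_le_mul (mul_le_mul a2 b2 p2 q1) c2 p3 (mul_nonneg q1 q2)
  · unfold hi
    calc _ ≤ (k:ℝ) ^ (-(2/3) : ℝ) * ((m:ℝ) - 1) ^ (-(2/3) : ℝ) * ((k:ℝ) + m + 1) ^ (1/3 : ℝ) :=
          mul_le_mul (mul_le_mul a1 (b1.trans b3) q2 (q1.trans a1)) c1 q3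
            (mul_nonneg (q1.trans a1) ((q2.trans b1).trans b3))
      _ = _ := by ring

theorem gd_mul {t : ℝ} (h : t ∈ Set.Icc (0:ℝ) 1) :
    gd t = t ^ (-(2/3) : ℝ) * (1 - t) ^ (-(2/3) : ℝ) := by
  unfold gd
  rw [Real.mul_rpow h.1 (by linarith [h.2])]

theorem gd_int {x y : ℝ} (hx : 0 ≤ x) (hxy : x ≤ y) (hy : y ≤ 1) :
    IntervalIntegrable gd volume x y := by
  refine int_gd.1.mono_set ?_
  rw [Set.uIcc_of_le hxy, Set.uIcc_of_le zero_le_one]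
  exact Set.Icc_subset_Icc hx hy

theorem int_bounds {k m : ℕ} (hk : 1 ≤ k) (hm : 2 ≤ m) :
    lo k m ≤ (∫ t in ((k:ℝ) / (k + m))..((k + 1) / (k + m)), gd t) ∧
    (∫ t in ((k:ℝ) / (k + m))..((k + 1) / (k + m)), gd t) ≤ hi k m := by
  have hk' : (1:ℝ) ≤ k := by exact_mod_cast hk
  have hm' : (2:ℝ) ≤ m := by exact_mod_cast hm
  have hL : (0:ℝ) < (k:ℝ) + m := by linarith
  have hle : (k:ℝ) / (k + m) ≤ (k + 1) / (k + m) := by
    apply div_le_div_of_nonneg_right _ hL.le; linarith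
  have hlen : ((k:ℝ) + 1) / (k + m) - k / (k + m) = 1 / (k + m) := by ring
  have hint := gd_int (x := (k:ℝ) / (k + m)) (y := ((k:ℝ) + 1) / (k + m)) (by positivity) hle
    (by rw [div_le_one hL]; linarith)
  have hmem : ∀ t ∈ Set.Icc ((k:ℝ) / (k + m)) ((k + 1) / (k + m)), 0 < t ∧ t ≤ (k+1)/(k+m) ∧
      (k:ℝ) / (k + m) ≤ t ∧ ((m:ℝ) - 1) / (k + m) ≤ 1 - t ∧ 1 - t ≤ m / (k + m) ∧ 0 < 1 - t ∧
      t ∈ Set.Icc (0:ℝ) 1 := by
    intro t ht
    have h1 : (0:ℝ) < k / (k + m) := by positivity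
    have h2 : 1 - ((k:ℝ) + 1) / (k + m) = (m - 1) / (k + m) := by field_simp; ring
    have h3 : 1 - (k:ℝ) / (k + m) = m / (k + m) := by field_simp; ring
    have h4 : (0:ℝ) < (m - 1) / (k + m) := div_pos (by linarith) hL
    have ht1 := ht.1
    have ht2 := ht.2
    exact ⟨by linarith, ht2, ht1, by linarith, by linarith, by linarith, by linarith, by linarith⟩
  have hpow : ∀ x : ℝ, 0 < x → (x / ((k:ℝ) + m)) ^ (-(2/3) : ℝ) =
      x ^ (-(2/3) : ℝ) * ((k:ℝ) + m) ^ (2/3 : ℝ) := by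
    intro x hx
    rw [Real.div_rpow hx.le hL.le, Real.rpow_neg hL.le, div_inv_eq_mul]
  have hL3 : ((k:ℝ) + m) ^ (2/3 : ℝ) * ((k:ℝ) + m) ^ (2/3 : ℝ) * (1 / (k + m)) =
      ((k:ℝ) + m) ^ (1/3 : ℝ) := by
    rw [← Real.rpow_add hL, mul_one_div, div_eq_iff hL.ne']
    nth_rewrite 3 [← Real.rpow_one ((k:ℝ) + m)]
    rw [← Real.rpow_add hL]
    norm_num
  constructor
  · have h1 : ∀ t ∈ Set.Icc ((k:ℝ) / (k + m)) ((k + 1) / (k + m)),
        (((k:ℝ) + 1) / (k + m)) ^ (-(2/3) : ℝ) * ((m:ℝ) / (k + m)) ^ (-(2/3) : ℝ) ≤ gd t := by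
      intro t ht
      obtain ⟨t1, t2, t3, t4, t5, t6, t7⟩ := hmem t ht
      rw [gd_mul t7]
      exact mul_le_mul (rp_anti t1 t2) (rp_anti t6 t5) (Real.rpow_nonneg (by positivity) _)
        (Real.rpow_nonneg t1.le _)
    have h2 := intervalIntegral.integral_mono_on hle intervalIntegrable_const hint h1
    rw [intervalIntegral.integral_const, hlen, smul_eq_mul, hpow _ (by linarith),
      hpow _ (by linarith)] at h2
    refine le_trans ?_ h2
    unfold lo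
    have h3 := rp_anti (x := (m:ℝ)) (y := (m:ℝ) + 1) (by linarith) (by linarith)
    calc ((k:ℝ) + m) ^ (1/3 : ℝ) * ((k:ℝ) + 1) ^ (-(2/3) : ℝ) * ((m:ℝ) + 1) ^ (-(2/3) : ℝ)
        ≤ ((k:ℝ) + m) ^ (1/3 : ℝ) * ((k:ℝ) + 1) ^ (-(2/3) : ℝ) * (m:ℝ) ^ (-(2/3) : ℝ) :=
          mul_le_mul_of_nonneg_left h3 (by positivity)
      _ = _ := by rw [← hL3]; ring
  · have h1 : ∀ t ∈ Set.Icc ((k:ℝ) / (k + m)) ((k + 1) / (k + m)), gd t ≤
        ((k:ℝ) / (k + m)) ^ (-(2/3) : ℝ) * (((m:ℝ) - 1) / (k + m)) ^ (-(2/3) : ℝ) := by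
      intro t ht
      obtain ⟨t1, t2, t3, t4, t5, t6, t7⟩ := hmem t ht
      rw [gd_mul t7]
      exact mul_le_mul (rp_anti (by positivity) t3) (rp_anti (div_pos (by linarith) hL) t4)
        (Real.rpow_nonneg t6.le _) (Real.rpow_nonneg (by positivity) _)
    have h2 := intervalIntegral.integral_mono_on hle hint intervalIntegrable_const h1
    rw [intervalIntegral.integral_const, hlen, smul_eq_mul, hpow _ (by linarith),
      hpow _ (by linarith)] at h2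
    refine le_trans h2 ?_
    unfold hi
    have h3 : ((k:ℝ) + m) ^ (1/3 : ℝ) ≤ ((k:ℝ) + m + 1) ^ (1/3 : ℝ) :=
      Real.rpow_le_rpow hL.le (by linarith) (by norm_num)
    have h4 : 0 ≤ ((m:ℝ) - 1) ^ (-(2/3) : ℝ) := Real.rpow_nonneg (by linarith) _
    calc 1 / ((k:ℝ) + m) * ((k:ℝ) ^ (-(2/3) : ℝ) * ((k:ℝ) + m) ^ (2/3 : ℝ) *
          (((m:ℝ) - 1) ^ (-(2/3) : ℝ) * ((k:ℝ) + m) ^ (2/3 : ℝ)))
        = ((k:ℝ) + m) ^ (1/3 : ℝ) * (k:ℝ) ^ (-(2/3) : ℝ) * ((m:ℝ) - 1) ^ (-(2/3) : ℝ) := by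
          rw [← hL3]; ring
      _ ≤ _ := by
          apply mul_le_mul_of_nonneg_right _ h4
          exact mul_le_mul_of_nonneg_right h3 (Real.rpow_nonneg (by linarith) _)

end Pool.Agent.H980R4.Rate
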