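import Pool.Agent.H980R4.Rate

/-! Rate of convergence, second part. -/

namespace Pool.Agent.H980R4.Rate

open Finset MeasureTheory Pool.Agent.H757R2.CardyLimit Pool.Agent.H757R2.CardySD Pool.Agent.H31C

theorem bern {y s : ℝ} (hy : 0 ≤ y) (hs : s ≤ 1) : (1 + y) ^ s ≤ 1 + y := by
  nth_rewrite 2 [← Real.rpow_one (1 + y)]
  exact Real.rpow_le_rpow_of_exponent_le (by linarith) hs

theorem hi_sub_lo {k m : ℕ} (hk : 1 ≤ k) (hkm : k < m) :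
    hi k m - lo k m ≤ 22 * (k:ℝ) ^ (-(5/3) : ℝ) * ((k:ℝ) + m) ^ (-(1/3) : ℝ) := by
  have hk' : (1:ℝ) ≤ k := by exact_mod_cast hk
  have hm' : (k:ℝ) + 1 ≤ m := by exact_mod_cast hkm
  have hk0 : (0:ℝ) < k := by linarith
  have hm0 : (0:ℝ) < m := by linarith
  have hL : (0:ℝ) < (k:ℝ) + m := by linarith
  have hlo0 : 0 ≤ lo k m := by unfold lo; positivity
  -- the three ratios
  have r1 : ((k:ℝ) + m + 1) ^ (1/3 : ℝ) ≤ ((k:ℝ) + m) ^ (1/3 : ℝ) * (1 + 1 / k) := by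
    have e : (k:ℝ) + m + 1 = ((k:ℝ) + m) * (1 + 1 / (k + m)) := by field_simp
    rw [e, Real.mul_rpow hL.le (by positivity)]
    apply mul_le_mul_of_nonneg_left _ (by positivity)
    refine (bern (by positivity) (by norm_num)).trans ?_
    have : (1:ℝ) / (k + m) ≤ 1 / k := one_div_le_one_div_of_le hk0 (by linarith)
    linarith
  have r2 : (k:ℝ) ^ (-(2/3) : ℝ) ≤ ((k:ℝ) + 1) ^ (-(2/3) : ℝ) * (1 + 1 / k) := by
    have e : (k:ℝ) ^ (-(2/3) : ℝ) = ((k:ℝ) + 1) ^ (-(2/3) : ℝ) * (1 + 1 / k) ^ (2/3 : ℝ) := by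
      have e1 : (k:ℝ) + 1 = k * (1 + 1 / k) := by field_simp
      rw [e1, Real.mul_rpow hk0.le (by positivity), mul_assoc, ← Real.rpow_add (by positivity)]
      norm_num
    rw [e]
    exact mul_le_mul_of_nonneg_left (bern (by positivity) (by norm_num)) (by positivity)
  have r3 : ((m:ℝ) - 1) ^ (-(2/3) : ℝ) ≤ ((m:ℝ) + 1) ^ (-(2/3) : ℝ) * (1 + 2 / k) := by
    have hm1 : (0:ℝ) < m - 1 := by linarith
    have e : ((m:ℝ) - 1) ^ (-(2/3) : ℝ) = ((m:ℝ) + 1) ^ (-(2/3) : ℝ) * (1 + 2 / (m - 1)) ^ (2/3 : ℝ) := by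
      have e1 : (m:ℝ) + 1 = (m - 1) * (1 + 2 / (m - 1)) := by field_simp; ring
      rw [e1, Real.mul_rpow hm1.le (by positivity), mul_assoc, ← Real.rpow_add (by positivity)]
      norm_num
    rw [e]
    apply mul_le_mul_of_nonneg_left _ (by positivity)
    refine (bern (by positivity) (by norm_num)).trans ?_
    have : (2:ℝ) / (m - 1) ≤ 2 / k := div_le_div_of_nonneg_left (by norm_num) hk0 (by linarith)
    linarith
  have h1 : hi k m ≤ lo k m * ((1 + 1 / k) * (1 + 1 / k) * (1 + 2 / k)) := by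
    unfold hi lo
    have s1 : 0 ≤ ((m:ℝ) - 1) ^ (-(2/3) : ℝ) := Real.rpow_nonneg (by linarith) _
    calc ((k:ℝ) + m + 1) ^ (1/3 : ℝ) * (k:ℝ) ^ (-(2/3) : ℝ) * ((m:ℝ) - 1) ^ (-(2/3) : ℝ)
        ≤ (((k:ℝ) + m) ^ (1/3 : ℝ) * (1 + 1 / k)) * (((k:ℝ) + 1) ^ (-(2/3) : ℝ) * (1 + 1 / k)) *
          (((m:ℝ) + 1) ^ (-(2/3) : ℝ) * (1 + 2 / k)) :=
          mul_le_mul (mul_le_mul r1 r2 (by positivity) (by positivity)) r3 s1 (by positivity)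
      _ = _ := by ring
  have h2 : (1 + 1 / (k:ℝ)) * (1 + 1 / k) * (1 + 2 / k) ≤ 1 + 11 / k := by
    have hx0 : (0:ℝ) < 1 / k := by positivity
    have hx1 : (1:ℝ) / k ≤ 1 := by rw [div_le_one hk0]; exact hk'
    have e2 : (2:ℝ) / k = 2 * (1 / k) := by ring
    have e3 : (11:ℝ) / k = 11 * (1 / k) := by ring
    rw [e2, e3]
    generalize (1:ℝ) / k = x at hx0 hx1
    nlinarith [mul_pos hx0 hx0, mul_nonneg hx0.le (sub_nonneg.mpr hx1),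
      mul_nonneg (mul_pos hx0 hx0).le (sub_nonneg.mpr hx1)]
  have h3 : hi k m - lo k m ≤ lo k m * (11 / k) := by
    have := mul_le_mul_of_nonneg_left h2 hlo0
    linarith
  have h4 : lo k m ≤ 2 * (k:ℝ) ^ (-(2/3) : ℝ) * ((k:ℝ) + m) ^ (-(1/3) : ℝ) := by
    have t1 := rp_anti (x := (k:ℝ)) (y := (k:ℝ) + 1) hk0 (by linarith)
    have t2 : ((m:ℝ) + 1) ^ (-(2/3) : ℝ) ≤ 2 * ((k:ℝ) + m) ^ (-(2/3) : ℝ) := by
      have u1 := rp_anti (x := ((k:ℝ) + m) / 2) (y := (m:ℝ) + 1) (by positivity) (by linarith)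
      refine u1.trans ?_
      rw [Real.div_rpow hL.le (by norm_num), Real.rpow_neg (by norm_num : (0:ℝ) ≤ 2), div_inv_eq_mul,
        mul_comm]
      apply mul_le_mul_of_nonneg_right _ (by positivity)
      have := bern (y := 1) (s := 2/3) (by norm_num) (by norm_num)
      norm_num at this
      exact this
    unfold lo
    calc ((k:ℝ) + m) ^ (1/3 : ℝ) * ((k:ℝ) + 1) ^ (-(2/3) : ℝ) * ((m:ℝ) + 1) ^ (-(2/3) : ℝ)
        ≤ ((k:ℝ) + m) ^ (1/3 : ℝ) * (k:ℝ) ^ (-(2/3) : ℝ) * (2 * ((k:ℝ) + m) ^ (-(2/3) : ℝ)) :=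
          mul_le_mul (mul_le_mul_of_nonneg_left t1 (by positivity)) t2 (by positivity) (by positivity)
      _ = 2 * (k:ℝ) ^ (-(2/3) : ℝ) * (((k:ℝ) + m) ^ (1/3 : ℝ) * ((k:ℝ) + m) ^ (-(2/3) : ℝ)) := by ring
      _ = _ := by
          rw [← Real.rpow_add hL]
          norm_num
  have h5 : (k:ℝ) ^ (-(2/3) : ℝ) * (1 / k) = (k:ℝ) ^ (-(5/3) : ℝ) := by
    rw [one_div]
    nth_rewrite 2 [← Real.rpow_one (k:ℝ)]
    rw [← Real.rpow_neg hk0.le, ← Real.rpow_add hk0]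
    norm_num
  calc hi k m - lo k m ≤ lo k m * (11 / k) := h3
    _ ≤ (2 * (k:ℝ) ^ (-(2/3) : ℝ) * ((k:ℝ) + m) ^ (-(1/3) : ℝ)) * (11 / k) :=
        mul_le_mul_of_nonneg_right h4 (by positivity)
    _ = 22 * ((k:ℝ) ^ (-(2/3) : ℝ) * (1 / k)) * ((k:ℝ) + m) ^ (-(1/3) : ℝ) := by ring
    _ = _ := by rw [h5]

theorem step53 {k : ℕ} (hk : 1 ≤ k) :
    ((k:ℝ) + 1) ^ (-(5/3) : ℝ) ≤ 5/2 * ((k:ℝ) ^ (-(2/3) : ℝ) - ((k:ℝ) + 1) ^ (-(2/3) : ℝ)) := by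
  have hk' : (1:ℝ) ≤ k := by exact_mod_cast hk
  have hk0 : (0:ℝ) < k := by linarith
  have hy0 : (0:ℝ) < 1 / k := by positivity
  have hy1 : (1:ℝ) / k ≤ 1 := by rw [div_le_one hk0]; exact hk'
  have e : (k:ℝ) ^ (-(2/3) : ℝ) = ((k:ℝ) + 1) ^ (-(2/3) : ℝ) * (1 + 1 / k) ^ (2/3 : ℝ) := by
    have e1 : (k:ℝ) + 1 = k * (1 + 1 / k) := by field_simp
    rw [e1, Real.mul_rpow hk0.le (by positivity), mul_assoc, ← Real.rpow_add (by positivity)]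
    norm_num
  have h1 : 1 + 2/5 * (1 / (k:ℝ)) ≤ (1 + 1 / k) ^ (2/3 : ℝ) := by
    have h2 : (1 + 1 / (k:ℝ)) ^ (1/2 : ℝ) ≤ (1 + 1 / k) ^ (2/3 : ℝ) :=
      Real.rpow_le_rpow_of_exponent_le (by linarith) (by norm_num)
    refine le_trans ?_ h2
    rw [← Real.sqrt_eq_rpow]
    apply Real.le_sqrt_of_sq_le
    generalize (1:ℝ) / k = y at hy0 hy1
    nlinarith
  have h3 : 1 / ((k:ℝ) + 1) ≤ 1 / k := one_div_le_one_div_of_le hk0 (by linarith)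
  have h4 : ((k:ℝ) + 1) ^ (-(5/3) : ℝ) = ((k:ℝ) + 1) ^ (-(2/3) : ℝ) * (1 / ((k:ℝ) + 1)) := by
    rw [one_div]
    nth_rewrite 3 [← Real.rpow_one ((k:ℝ) + 1)]
    rw [← Real.rpow_neg (by linarith), ← Real.rpow_add (by linarith)]
    norm_num
  have hp : 0 ≤ ((k:ℝ) + 1) ^ (-(2/3) : ℝ) := by positivity
  rw [h4, e]
  have h5 : ((k:ℝ) + 1) ^ (-(2/3) : ℝ) * (1 / ((k:ℝ) + 1)) ≤
      ((k:ℝ) + 1) ^ (-(2/3) : ℝ) * (1 / k) := mul_le_mul_of_nonneg_left h3 hp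
  have h6 := mul_le_mul_of_nonneg_left h1 hp
  nlinarith

theorem sum53 {a : ℕ} (ha : 1 ≤ a) (h : ℕ) (hah : a ≤ h) :
    ∑ k ∈ Ico (a + 1) (h + 1), (k:ℝ) ^ (-(5/3) : ℝ) ≤
      5/2 * ((a:ℝ) ^ (-(2/3) : ℝ) - (h:ℝ) ^ (-(2/3) : ℝ)) := by
  induction h, hah using Nat.le_induction with
  | base => simp
  | succ n hn ih =>
    rw [sum_Ico_succ_top (by omega)]
    have h1 := step53 (k := n) (by omega)
    push_cast
    linarith

end Pool.Agent.H980R4.Rate
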