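import Pool.Agent.H980R4.Rate2

/-! Rate of convergence, third part. -/

namespace Pool.Agent.H980R4.Rate

open Finset MeasureTheory Pool.Agent.H757R2.CardyLimit Pool.Agent.H757R2.CardySD Pool.Agent.H31C

/-- the exact crossing probability -/
noncomputable def S (a L : ℕ) : ℝ := ∑ k ∈ range (a + 1), bw L k

/-- Cardy's function -/
noncomputable def F (x : ℝ) : ℝ := (∫ t in (0:ℝ)..x, gd t) / BB

theorem bw_symm {L k : ℕ} (h : k ≤ L) : bw L (L - k) = bw L k := by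
  unfold bw
  have e : L - (L - k) = k := by omega
  rw [e, Nat.choose_symm h]
  ring

theorem S_symm {a b : ℕ} : S a (a + b + 1) = 1 - S b (a + b + 1) := by
  have h1 := total (a + b + 1)
  have h2 : ∑ k ∈ range (a + b + 1 + 1), bw (a+b+1) k =
      S a (a+b+1) + ∑ k ∈ Ico (a + 1) (a + b + 1 + 1), bw (a+b+1) k := by
    unfold S
    rw [Finset.sum_range_add_sum_Ico _ (by omega)]
  have h3 : ∑ k ∈ Ico (a + 1) (a + b + 1 + 1), bw (a+b+1) k = S b (a+b+1) := by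
    unfold S
    rw [Finset.sum_Ico_eq_sum_range]
    have e : a + b + 1 + 1 - (a + 1) = b + 1 := by omega
    rw [e, ← Finset.sum_range_reflect]
    apply sum_congr rfl
    intro k hk
    rw [mem_range] at hk
    have e2 : a + 1 + (b + 1 - 1 - k) = (a + b + 1) - k := by omega
    rw [e2, bw_symm (by omega)]
  linarith

theorem S_half (h : ℕ) : S h (2 * h + 1) = 1/2 := by
  have := S_symm (a := h) (b := h)
  have e : h + h + 1 = 2 * h + 1 := by omega
  rw [e] at this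
  linarith

theorem F_one : F 1 = 1 := div_self BB_pos.ne'

theorem F_symm {x : ℝ} (hx : 0 ≤ x) (hx1 : x ≤ 1) : F (1 - x) = 1 - F x := by
  have h1 : ∫ t in (0:ℝ)..(1 - x), gd t = ∫ t in x..1, gd t := by
    have := intervalIntegral.integral_comp_sub_left (a := x) (b := 1) gd 1
    rw [sub_self] at this
    rw [← this]
    apply intervalIntegral.integral_congr
    intro t _
    unfold gd
    simp only
    congr 1
    ring
  have h2 : (∫ t in (0:ℝ)..x, gd t) + ∫ t in x..1, gd t = BB :=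
    intervalIntegral.integral_add_adjacent_intervals (gd_int le_rfl hx hx1) (gd_int hx hx1 le_rfl)
  unfold F
  rw [h1, eq_sub_iff_add_eq, ← add_div, add_comm, h2]
  exact div_self BB_pos.ne'

theorem F_half : F (1/2) = 1/2 := by
  have := F_symm (x := 1/2) (by norm_num) (by norm_num)
  norm_num at this
  linarith

theorem F_sub {x y : ℝ} (hx : 0 ≤ x) (hxy : x ≤ y) (hy : y ≤ 1) :
    F y - F x = (∫ t in x..y, gd t) / BB := by
  have h2 : (∫ t in (0:ℝ)..x, gd t) + ∫ t in x..y, gd t = ∫ t in (0:ℝ)..y, gd t :=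
    intervalIntegral.integral_add_adjacent_intervals (gd_int le_rfl hx (hxy.trans hy))
      (gd_int hx hxy hy)
  unfold F
  rw [← h2]
  ring

theorem int_nonneg {x y : ℝ} (hx : 0 ≤ x) (hxy : x ≤ y) (hy : y ≤ 1) :
    0 ≤ ∫ t in x..y, gd t :=
  intervalIntegral.integral_nonneg hxy fun t ht =>
    gd_nonneg ⟨hx.trans ht.1, ht.2.trans hy⟩

theorem int_le {x y c : ℝ} (hx : 0 ≤ x) (hxy : x ≤ y) (hy : y ≤ 1)
    (hc : ∀ t ∈ Set.Icc x y, gd t ≤ c) : ∫ t in x..y, gd t ≤ (y - x) * c := by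
  have h := intervalIntegral.integral_mono_on hxy (gd_int hx hxy hy) intervalIntegrable_const hc
  rwa [intervalIntegral.integral_const, smul_eq_mul] at h

/-- the sum against the integral -/
theorem sum_part {a h : ℕ} (ha : 1 ≤ a) (hah : a ≤ h) :
    |(∑ k ∈ Ico (a + 1) (h + 1), bw (2*h+1) k) * BB -
      ∫ t in (((a:ℝ) + 1) / (2*h+1))..(((h:ℝ) + 1) / (2*h+1)), gd t| ≤
      55 * (a:ℝ) ^ (-(2/3) : ℝ) * (2*(h:ℝ)+1) ^ (-(1/3) : ℝ) := by
  set f : ℕ → ℝ := fun k => (k:ℝ) / (2*h+1) with hf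
  have hLpos : (0:ℝ) < 2*(h:ℝ)+1 := by positivity
  have hint : ∀ k ∈ Set.Ico (a+1) (h+1), IntervalIntegrable gd volume (f k) (f (k+1)) := by
    intro k hk
    refine gd_int (by positivity) ?_ ?_
    · simp only [hf]
      apply div_le_div_of_nonneg_right _ hLpos.le
      push_cast; linarith
    · simp only [hf]
      rw [div_le_one hLpos]
      have : k + 1 ≤ h + 1 := hk.2
      have : ((k + 1 : ℕ) : ℝ) ≤ ((h + 1 : ℕ) : ℝ) := by exact_mod_cast this
      push_cast at this ⊢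
      have hh : (0:ℝ) ≤ h := by positivity
      linarith
  have hsum := intervalIntegral.sum_integral_adjacent_intervals_Ico (a := f) (μ := volume) (f := gd)
    (m := a+1) (n := h+1) (by omega) hint
  have ef1 : f (a+1) = ((a:ℝ) + 1) / (2*h+1) := by simp only [hf]; push_cast; ring
  have ef2 : f (h+1) = ((h:ℝ) + 1) / (2*h+1) := by simp only [hf]; push_cast; ring
  rw [ef1, ef2] at hsum
  rw [← hsum, sum_mul, ← sum_sub_distrib]
  refine (abs_sum_le_sum_abs _ _).trans ?_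
  have hterm : ∀ k ∈ Ico (a+1) (h+1), |bw (2*h+1) k * BB - ∫ t in (f k)..(f (k+1)), gd t| ≤
      22 * (k:ℝ) ^ (-(5/3) : ℝ) * (2*(h:ℝ)+1) ^ (-(1/3) : ℝ) := by
    intro k hk
    rw [mem_Ico] at hk
    obtain ⟨m, hm⟩ : ∃ m, 2*h+1 = k + m := ⟨2*h+1-k, by omega⟩
    have hmr : (2*(h:ℝ)+1) = (k:ℝ) + m := by exact_mod_cast hm
    have b1 := bw_bounds (k := k) (m := m) (by omega) (by omega)
    have b2 := int_bounds (k := k) (m := m) (by omega) (by omega)
    have b3 := hi_sub_lo (k := k) (m := m) (by omega) (by omega)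
    have e1 : f k = (k:ℝ) / (k + m) := by simp only [hf]; rw [hmr]
    have e2 : f (k+1) = ((k:ℝ) + 1) / (k + m) := by simp only [hf]; rw [hmr]; push_cast; rfl
    rw [e1, e2, hmr, hm, abs_le]
    constructor <;> linarith [b1.1, b1.2, b2.1, b2.2]
  refine (sum_le_sum hterm).trans ?_
  have h53 := sum53 ha h hah
  have hp : (0:ℝ) ≤ (2*(h:ℝ)+1) ^ (-(1/3) : ℝ) := by positivity
  have hq : (0:ℝ) ≤ (h:ℝ) ^ (-(2/3) : ℝ) := by positivity
  rw [← sum_mul, ← mul_sum]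
  apply mul_le_mul_of_nonneg_right _ hp
  linarith

theorem mid_part {h : ℕ} (hh : 1 ≤ h) :
    ∫ t in ((1:ℝ)/2)..(((h:ℝ) + 1) / (2*h+1)), gd t ≤ 2 / (2*h+1) := by
  have hh' : (1:ℝ) ≤ h := by exact_mod_cast hh
  have hLpos : (0:ℝ) < 2*(h:ℝ)+1 := by positivity
  have hlen : ((h:ℝ) + 1) / (2*h+1) - 1/2 = 1 / (2 * (2*h+1)) := by field_simp; ring
  have h23 : ((h:ℝ) + 1) / (2*h+1) ≤ 2/3 := by rw [div_le_div_iff₀ hLpos (by norm_num)]; linarith
  have h12 : (1:ℝ)/2 ≤ ((h:ℝ) + 1) / (2*h+1) := by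
    have : (0:ℝ) < 1 / (2 * (2*h+1)) := by positivity
    linarith
  have h := int_le (c := 4) (x := 1/2) (y := ((h:ℝ) + 1) / (2*h+1)) (by norm_num) h12 (by linarith) (by
    intro t ht
    have t1 := ht.1
    have t2 : t ≤ 2/3 := ht.2.trans h23
    have h8 : (1:ℝ)/8 ≤ t * (1 - t) := by nlinarith
    unfold gd
    refine (Real.rpow_le_rpow_of_nonpos (by norm_num) h8 (by norm_num)).trans (le_of_eq ?_)
    have : (1:ℝ)/8 = 2 ^ (-3 : ℝ) := by
      rw [Real.rpow_neg (by norm_num)]; norm_num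
    rw [this, ← Real.rpow_mul (by norm_num)]
    norm_num)
  refine h.trans (le_of_eq ?_)
  rw [hlen]
  field_simp
  norm_num

theorem shift_part {a h : ℕ} (ha : 1 ≤ a) (hah : a ≤ h) :
    (a:ℝ) / (2*h) ≤ ((a:ℝ) + 1) / (2*h+1) ∧
    ∫ t in ((a:ℝ) / (2*h))..(((a:ℝ) + 1) / (2*h+1)), gd t ≤
      3 * (a:ℝ) ^ (-(2/3) : ℝ) * (2*(h:ℝ)+1) ^ (-(1/3) : ℝ) := by
  have ha' : (1:ℝ) ≤ a := by exact_mod_cast ha
  have hh' : (a:ℝ) ≤ h := by exact_mod_cast hah
  have ha0 : (0:ℝ) < a := by linarith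
  have hh0 : (0:ℝ) < h := by linarith
  have hLpos : (0:ℝ) < 2*(h:ℝ)+1 := by positivity
  have hlen : ((a:ℝ) + 1) / (2*h+1) - (a:ℝ) / (2*h) = (2*h - a) / (2*h*(2*h+1)) := by field_simp; ring
  have hnn : 0 ≤ (2*(h:ℝ) - a) / (2*h*(2*h+1)) := div_nonneg (by linarith) (by positivity)
  have hle : (a:ℝ) / (2*h) ≤ ((a:ℝ) + 1) / (2*h+1) := by linarith
  refine ⟨hle, ?_⟩
  have h1 : ((a:ℝ) + 1) / (2*h+1) ≤ 2/3 := by rw [div_le_div_iff₀ hLpos (by norm_num)]; nlinarith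
  have hshort : (2*(h:ℝ) - a) / (2*h*(2*h+1)) ≤ 1 / (2*h+1) := by
    rw [div_le_div_iff₀ (by positivity) hLpos]
    nlinarith [mul_pos ha0 hLpos]
  have hI := int_le (c := 3 * ((a:ℝ) / (2*h+1)) ^ (-(2/3) : ℝ)) (x := (a:ℝ) / (2*h))
    (y := ((a:ℝ) + 1) / (2*h+1)) (by positivity) hle (by linarith) (by
    intro t ht
    have t1 := ht.1
    have t2 : t ≤ 2/3 := ht.2.trans h1
    have t0 : 0 < (a:ℝ) / (2*h) := by positivity
    have t3 : (a:ℝ) / (2*h+1) ≤ t := by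
      refine le_trans ?_ t1
      exact div_le_div_of_nonneg_left ha0.le (by positivity) (by linarith)
    rw [gd_mul ⟨by linarith, by linarith⟩, mul_comm]
    apply mul_le_mul _ (rp_anti (by positivity) t3) (Real.rpow_nonneg (by linarith) _) (by norm_num)
    refine (rp_anti (x := 1/3) (by norm_num) (by linarith)).trans ?_
    rw [Real.div_rpow (by norm_num) (by norm_num), Real.one_rpow, Real.rpow_neg (by norm_num),
      one_div, inv_inv]
    have := Real.rpow_le_rpow_of_exponent_le (x := 3) (y := 2/3) (z := 1) (by norm_num) (by norm_num)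
    rwa [Real.rpow_one] at this)
  refine hI.trans ?_
  rw [hlen]
  have hc0 : 0 ≤ 3 * ((a:ℝ) / (2*h+1)) ^ (-(2/3) : ℝ) := by positivity
  refine (mul_le_mul_of_nonneg_right hshort hc0).trans (le_of_eq ?_)
  rw [Real.div_rpow ha0.le hLpos.le, Real.rpow_neg hLpos.le (2/3), div_inv_eq_mul]
  have : 1 / (2*(h:ℝ)+1) * (2*(h:ℝ)+1) ^ (2/3 : ℝ) = (2*(h:ℝ)+1) ^ (-(1/3) : ℝ) := by
    rw [one_div]
    nth_rewrite 1 [← Real.rpow_one (2*(h:ℝ)+1)]
    rw [← Real.rpow_neg hLpos.le, ← Real.rpow_add hLpos]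
    norm_num
  rw [← this]
  ring

theorem BB_ge : 2 ≤ BB := by
  have h1 : ∀ t ∈ Set.Icc (0:ℝ) 1, t ∈ Set.Ioo (0:ℝ) 1 → (2:ℝ) ≤ gd t := by
    intro t _ ht
    have hp : 0 < t * (1 - t) := mul_pos ht.1 (by linarith [ht.2])
    unfold gd
    have h2 : (4:ℝ)⁻¹ ^ (-(2/3) : ℝ) ≤ (t * (1 - t)) ^ (-(2/3) : ℝ) :=
      Real.rpow_le_rpow_of_nonpos hp (by have := t_bd (t := t); linarith) (by norm_num)
    refine le_trans ?_ h2
    rw [Real.inv_rpow (by norm_num), Real.rpow_neg (by norm_num), inv_inv]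
    have h3 := Real.rpow_le_rpow_of_exponent_le (x := 4) (y := 1/2) (z := 2/3) (by norm_num) (by norm_num)
    refine le_trans ?_ h3
    rw [← Real.sqrt_eq_rpow]
    apply Real.le_sqrt_of_sq_le
    norm_num
  have h2 : ∫ _ in (0:ℝ)..1, (2:ℝ) ≤ ∫ t in (0:ℝ)..1, gd t := by
    apply intervalIntegral.integral_mono_on_of_le_Ioo zero_le_one intervalIntegrable_const int_gd.1
    intro t ht
    exact h1 t (Set.Ioo_subset_Icc_self ht) ht
  rw [intervalIntegral.integral_const, smul_eq_mul] at h2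
  unfold BB
  linarith

theorem core {a h : ℕ} (ha : 1 ≤ a) (hah : a ≤ h) :
    |S a (2*h+1) - F ((a:ℝ) / (2*h))| ≤ 30 * (a:ℝ) ^ (-(2/3) : ℝ) * (2*(h:ℝ)+1) ^ (-(1/3) : ℝ) := by
  have ha' : (1:ℝ) ≤ a := by exact_mod_cast ha
  have hh' : (a:ℝ) ≤ h := by exact_mod_cast hah
  have ha0 : (0:ℝ) < a := by linarith
  have hh0 : (0:ℝ) < h := by linarith
  have hLpos : (0:ℝ) < 2*(h:ℝ)+1 := by positivity
  obtain ⟨hs1, hs2⟩ := shift_part ha hah
  have hm := mid_part (h := h) (by omega)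
  have hsp := sum_part ha hah
  set E := (a:ℝ) ^ (-(2/3) : ℝ) * (2*(h:ℝ)+1) ^ (-(1/3) : ℝ) with hE
  have hE0 : 0 ≤ E := by positivity
  have hone : 1 / (2*(h:ℝ)+1) ≤ E := by
    have e : 1 / (2*(h:ℝ)+1) = (2*(h:ℝ)+1) ^ (-(2/3) : ℝ) * (2*(h:ℝ)+1) ^ (-(1/3) : ℝ) := by
      rw [← Real.rpow_add hLpos, one_div]
      nth_rewrite 1 [← Real.rpow_one (2*(h:ℝ)+1)]
      rw [← Real.rpow_neg hLpos.le]
      norm_num
    rw [e]
    exact mul_le_mul_of_nonneg_right (rp_anti ha0 (by linarith)) (by positivity)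
  -- the three integrals
  have hhalf : (1:ℝ)/2 ≤ ((h:ℝ) + 1) / (2*h+1) := by
    rw [div_le_div_iff₀ (by norm_num) hLpos]; linarith
  have htop : ((h:ℝ) + 1) / (2*h+1) ≤ 1 := by rw [div_le_one hLpos]; linarith
  have hx1 : ((a:ℝ) + 1) / (2*h+1) ≤ ((h:ℝ) + 1) / (2*h+1) :=
    div_le_div_of_nonneg_right (by linarith) hLpos.le
  have f1 := F_sub (x := ((a:ℝ) + 1) / (2*h+1)) (y := ((h:ℝ) + 1) / (2*h+1)) (by positivity) hx1 htop
  have f2 := F_sub (x := 1/2) (y := ((h:ℝ) + 1) / (2*h+1)) (by norm_num) hhalf htop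
  have f3 := F_sub (x := (a:ℝ) / (2*h)) (y := ((a:ℝ) + 1) / (2*h+1)) (by positivity) hs1
    (hx1.trans htop)
  have g1 := int_nonneg (x := 1/2) (y := ((h:ℝ) + 1) / (2*h+1)) (by norm_num) hhalf htop
  have g2 := int_nonneg (x := (a:ℝ) / (2*h)) (y := ((a:ℝ) + 1) / (2*h+1)) (by positivity) hs1
    (hx1.trans htop)
  have hS : S a (2*h+1) = 1/2 - ∑ k ∈ Ico (a + 1) (h + 1), bw (2*h+1) k := by
    have := S_half h
    unfold S at this ⊢
    rw [← Finset.sum_range_add_sum_Ico (fun k => bw (2*h+1) k) (show a + 1 ≤ h + 1 by omega)] at this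
    linarith
  have hF := F_half
  set I1 := ∫ t in (((a:ℝ) + 1) / (2*h+1))..(((h:ℝ) + 1) / (2*h+1)), gd t with hI1
  set I2 := ∫ t in ((1:ℝ)/2)..(((h:ℝ) + 1) / (2*h+1)), gd t with hI2
  set I3 := ∫ t in ((a:ℝ) / (2*h))..(((a:ℝ) + 1) / (2*h+1)), gd t with hI3
  set W := ∑ k ∈ Ico (a + 1) (h + 1), bw (2*h+1) k with hW
  have hBB := BB_pos
  have key : S a (2*h+1) - F ((a:ℝ) / (2*h)) = (I3 - I2 - (W * BB - I1)) / BB := by
    have e1 : (I3 - I2 - (W * BB - I1)) / BB = I3 / BB - I2 / BB - W + I1 / BB := by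
      field_simp
      ring
    rw [e1, ← f1, ← f2, ← f3, hS, hF]
    ring
  rw [key, abs_div, abs_of_pos hBB, div_le_iff₀ hBB]
  have hsp' := abs_le.mp hsp
  have hm' : I2 ≤ 2 * E := by
    refine hm.trans ?_
    have : (2:ℝ) / (2*h+1) = 2 * (1 / (2*h+1)) := by ring
    rw [this]
    linarith
  have e55 : 55 * (a:ℝ) ^ (-(2/3) : ℝ) * (2*(h:ℝ)+1) ^ (-(1/3) : ℝ) = 55 * E := by rw [hE]; ring
  have e3 : 3 * (a:ℝ) ^ (-(2/3) : ℝ) * (2*(h:ℝ)+1) ^ (-(1/3) : ℝ) = 3 * E := by rw [hE]; ring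
  have e30 : 30 * (a:ℝ) ^ (-(2/3) : ℝ) * (2*(h:ℝ)+1) ^ (-(1/3) : ℝ) = 30 * E := by rw [hE]; ring
  rw [e55] at hsp'
  rw [e3] at hs2
  rw [e30]
  have hB2 := BB_ge
  have hfin : 60 * E ≤ 30 * E * BB := by nlinarith
  refine le_trans ?_ hfin
  rw [abs_le]
  constructor <;> linarith [hsp'.1, hsp'.2]

/-- **Rate of convergence of the beta-binomial distribution function.** -/
theorem rate {a b : ℕ} (ha : 1 ≤ a) (hb : 1 ≤ b) (hpar : Even (a + b)) :
    |S a (a+b+1) - F ((a:ℝ) / (a + b))| ≤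
      30 * ((min a b : ℕ) : ℝ) ^ (-(2/3) : ℝ) * ((a:ℝ) + b + 1) ^ (-(1/3) : ℝ) := by
  have main : ∀ a b : ℕ, 1 ≤ a → a ≤ b → Even (a + b) → |S a (a+b+1) - F ((a:ℝ) / (a + b))| ≤
      30 * (a : ℝ) ^ (-(2/3) : ℝ) * ((a:ℝ) + b + 1) ^ (-(1/3) : ℝ) := by
    intro a b ha hab hpar
    obtain ⟨h, hh⟩ := hpar
    have h2 : a + b + 1 = 2*h+1 := by omega
    have h3 : (a:ℝ) + b = 2*h := by
      have : a + b = 2 * h := by omega
      exact_mod_cast this
    rw [h2, h3]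
    exact core ha (by omega)
  rcases le_total a b with hab | hab
  · rw [min_eq_left hab]
    exact main a b ha hab hpar
  · rw [min_eq_right hab]
    have h1 := main b a hb hab (by rwa [add_comm] at hpar)
    have e1 : b + a + 1 = a + b + 1 := by omega
    have ha0 : (0:ℝ) < a := by exact_mod_cast ha
    have hb0 : (0:ℝ) < b := by exact_mod_cast hb
    have e2 : (b:ℝ) / (b + a) = 1 - (a:ℝ) / (a + b) := by field_simp; ring
    have e3 : (b:ℝ) + a + 1 = a + b + 1 := by ring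
    rw [e1, e2, F_symm (by positivity) (by rw [div_le_one (by positivity)]; linarith), e3] at h1
    rw [S_symm, ← abs_neg]
    have e4 : -(1 - S b (a + b + 1) - F ((a:ℝ) / (a + b))) =
      S b (a + b + 1) - (1 - F ((a:ℝ) / (a + b))) := by ring
    rw [e4]
    exact h1

end Pool.Agent.H980R4.Rate
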