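import Pool.Agent.H980R4.Rate3
import Pool.Agent.H863R4.AllPar

/-! Rate of convergence in the exact Cardy formula, all parities. -/

namespace Pool.Agent.H980R4.Rate

open Finset MeasureTheory Pool.Agent.H757R2.CardyLimit Pool.Agent.H757R2.CardySD Pool.Agent.H31C
open Pool.Agent.H988R2.Perc Pool.Agent.H863R4

theorem cardyF_eq (x : ℝ) : cardyF x = F x := by
  have e : ∀ t : ℝ, (t * (1 - t)) ^ (-(2:ℝ)/3) = gd t := by
    intro t
    unfold gd
    congr 1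
    ring
  unfold cardyF F BB
  simp_rw [e]

/-- Cardy's function at nearby fractions -/
theorem F_near {a b a' b' : ℕ} (ha : 1 ≤ a) (hb : 1 ≤ b) (ha' : 1 ≤ a') (hb' : 1 ≤ b')
    (h1 : |(a' : ℝ) - a| ≤ 1) (h2 : |(b' : ℝ) - b| ≤ 1) :
    |F ((a' : ℝ) / (a' + b')) - F ((a : ℝ) / (a + b))| ≤
      11 * ((min a b : ℕ) : ℝ) ^ (-(2/3) : ℝ) * ((a:ℝ) + b) ^ (-(1/3) : ℝ) := by
  have pa : (1:ℝ) ≤ a := by exact_mod_cast ha
  have pb : (1:ℝ) ≤ b := by exact_mod_cast hb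
  have pa' : (1:ℝ) ≤ a' := by exact_mod_cast ha'
  have pb' : (1:ℝ) ≤ b' := by exact_mod_cast hb'
  rw [abs_le] at h1 h2
  set n : ℝ := ((min a b : ℕ) : ℝ) with hn
  have hna : n ≤ a := by rw [hn]; exact_mod_cast min_le_left a b
  have hnb : n ≤ b := by rw [hn]; exact_mod_cast min_le_right a b
  have hn1 : 1 ≤ n := by rw [hn]; exact_mod_cast le_min ha hb
  have hab : n * (a + b) ≤ 2 * (a * b) := by nlinarith
  have hs : (0:ℝ) < a + b := by linarith
  have hs' : (0:ℝ) < (a':ℝ) + b' := by linarith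
  have d1 : (a:ℝ) / 2 ≤ a' := by linarith
  have d2 : (b:ℝ) / 2 ≤ b' := by linarith
  have x1 : (a:ℝ) / (4 * (a + b)) ≤ a' / (a' + b') := by
    rw [div_le_div_iff₀ (by linarith) hs']
    nlinarith
  have x2 : (b:ℝ) / (4 * (a + b)) ≤ 1 - a' / (a' + b') := by
    have e : 1 - (a':ℝ) / (a' + b') = b' / (a' + b') := by field_simp; ring
    rw [e, div_le_div_iff₀ (by linarith) hs']
    nlinarith
  have y1 : (a:ℝ) / (4 * (a + b)) ≤ a / (a + b) := by
    rw [div_le_div_iff₀ (by linarith) hs]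
    nlinarith
  have y2 : (b:ℝ) / (4 * (a + b)) ≤ 1 - a / (a + b) := by
    have e : 1 - (a:ℝ) / (a + b) = b / (a + b) := by field_simp; ring
    rw [e, div_le_div_iff₀ (by linarith) hs]
    nlinarith
  have dist : |(a':ℝ) / (a' + b') - a / (a + b)| ≤ 2 / (a + b) := by
    have e : (a':ℝ) / (a' + b') - a / (a + b) =
        (b * (a' - a) - a * (b' - b)) / ((a' + b') * (a + b)) := by field_simp; ring
    rw [e, abs_div, abs_of_pos (mul_pos hs' hs), div_le_div_iff₀ (mul_pos hs' hs) hs]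
    have h3 : |(b:ℝ) * (a' - a) - a * (b' - b)| ≤ a + b := by
      rw [abs_le]; constructor <;> nlinarith
    have h4 : (a:ℝ) + b ≤ 2 * (a' + b') := by linarith
    calc |(b:ℝ) * (a' - a) - a * (b' - b)| * (a + b) ≤ (a + b) * (a + b) :=
          mul_le_mul_of_nonneg_right h3 hs.le
      _ ≤ (2 * (a' + b')) * (a + b) := mul_le_mul_of_nonneg_right h4 hs.le
      _ = 2 * ((a' + b') * (a + b)) := by ring
  have hgd : ∀ t : ℝ, (a:ℝ) / (4 * (a + b)) ≤ t → (b:ℝ) / (4 * (a + b)) ≤ 1 - t →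
      gd t ≤ 11 * (n ^ (-(2/3) : ℝ) * ((a:ℝ) + b) ^ (2/3 : ℝ)) := by
    intro t t1 t2
    have p1 : (0:ℝ) < a / (4 * (a + b)) := by positivity
    have p2 : (0:ℝ) < b / (4 * (a + b)) := by positivity
    have h3 : n / (32 * (a + b)) ≤ t * (1 - t) := by
      have h4 : (a:ℝ) / (4 * (a + b)) * (b / (4 * (a + b))) ≤ t * (1 - t) :=
        mul_le_mul t1 t2 p2.le (p1.le.trans t1)
      refine le_trans ?_ h4
      rw [div_mul_div_comm, div_le_div_iff₀ (by positivity) (by positivity)]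
      nlinarith [mul_le_mul_of_nonneg_right hab hs.le]
    unfold gd
    refine (Real.rpow_le_rpow_of_nonpos (by positivity) h3 (by norm_num)).trans ?_
    rw [Real.div_rpow (by linarith) (by positivity), Real.mul_rpow (by norm_num) hs.le,
      Real.rpow_neg (by norm_num : (0:ℝ) ≤ 32), Real.rpow_neg hs.le]
    have h32 : (32:ℝ) ^ (2/3 : ℝ) ≤ 11 := by
      have e : (32:ℝ) ^ (2/3 : ℝ) = ((32:ℝ) ^ (2:ℝ)) ^ (1/3 : ℝ) := by
        rw [← Real.rpow_mul (by norm_num)]; norm_num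
      have e2 : (11:ℝ) = ((11:ℝ) ^ (3:ℝ)) ^ (1/3 : ℝ) := by
        rw [← Real.rpow_mul (by norm_num)]; norm_num
      rw [e, e2]
      apply Real.rpow_le_rpow (by positivity) _ (by norm_num)
      norm_num
    have q1 : 0 ≤ n ^ (-(2/3) : ℝ) * ((a:ℝ) + b) ^ (2/3 : ℝ) := by positivity
    have e3 : n ^ (-(2/3) : ℝ) / (((32:ℝ) ^ (2/3 : ℝ))⁻¹ * (((a:ℝ) + b) ^ (2/3 : ℝ))⁻¹) =
        (32:ℝ) ^ (2/3 : ℝ) * (n ^ (-(2/3) : ℝ) * ((a:ℝ) + b) ^ (2/3 : ℝ)) := by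
      field_simp
    rw [e3]
    exact mul_le_mul_of_nonneg_right h32 q1
  have hpow : ((a:ℝ) + b) ^ (-(1/3) : ℝ) = ((a:ℝ) + b) ^ (2/3 : ℝ) * (1 / (a + b)) := by
    have e : (1:ℝ) / (a + b) = ((a:ℝ) + b) ^ (-1 : ℝ) := by rw [Real.rpow_neg_one, one_div]
    rw [e, ← Real.rpow_add hs]
    norm_num
  have main : ∀ x y : ℝ, x ≤ y → (a:ℝ) / (4 * (a + b)) ≤ x → (b:ℝ) / (4 * (a + b)) ≤ 1 - y →
      y - x ≤ 2 / (a + b) → |F y - F x| ≤
      11 * n ^ (-(2/3) : ℝ) * ((a:ℝ) + b) ^ (-(1/3) : ℝ) := by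
    intro x y hxy hx hy hd
    have p1 : (0:ℝ) < a / (4 * (a + b)) := by positivity
    have p2 : (0:ℝ) < b / (4 * (a + b)) := by positivity
    have hx0 : 0 ≤ x := by linarith
    have hy1 : y ≤ 1 := by linarith
    rw [F_sub hx0 hxy hy1, abs_of_nonneg (div_nonneg (int_nonneg hx0 hxy hy1) BB_pos.le),
      div_le_iff₀ BB_pos]
    have hc : ∀ t ∈ Set.Icc x y, gd t ≤ 11 * (n ^ (-(2/3) : ℝ) * ((a:ℝ) + b) ^ (2/3 : ℝ)) :=
      fun t ht => hgd t (hx.trans ht.1) (by linarith [ht.2])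
    have q1 : 0 ≤ n ^ (-(2/3) : ℝ) * ((a:ℝ) + b) ^ (2/3 : ℝ) := by positivity
    refine (int_le hx0 hxy hy1 hc).trans ?_
    refine (mul_le_mul_of_nonneg_right hd (by linarith)).trans ?_
    rw [hpow]
    have hB := BB_ge
    have q2 : 0 ≤ 11 * (n ^ (-(2/3) : ℝ) * ((a:ℝ) + b) ^ (2/3 : ℝ)) * (1 / (a + b)) := by positivity
    calc 2 / ((a:ℝ) + b) * (11 * (n ^ (-(2/3) : ℝ) * ((a:ℝ) + b) ^ (2/3 : ℝ)))
        = (11 * (n ^ (-(2/3) : ℝ) * ((a:ℝ) + b) ^ (2/3 : ℝ)) * (1 / (a + b))) * 2 := by ring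
      _ ≤ (11 * (n ^ (-(2/3) : ℝ) * ((a:ℝ) + b) ^ (2/3 : ℝ)) * (1 / (a + b))) * BB :=
          mul_le_mul_of_nonneg_left hB q2
      _ = _ := by ring
  rw [abs_le] at dist
  rcases le_total ((a':ℝ) / (a' + b')) ((a:ℝ) / (a + b)) with h | h
  · rw [abs_sub_comm]
    exact main _ _ h x1 y2 (by linarith)
  · exact main _ _ h y1 x2 (by linarith)

/-- the rate for the event of the slit strip, both numbers odd -/
theorem cross_rate_odd (hE : S_Exact) {a b : ℕ} (ha : Odd a) (hb : Odd b) :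
    |perc.real (Cross a b) - cardyF ((a:ℝ) / (a + b))| ≤
      30 * ((min a b : ℕ) : ℝ) ^ (-(2/3) : ℝ) * ((a:ℝ) + b + 1) ^ (-(1/3) : ℝ) := by
  rw [hE a b ha hb, cardyF_eq]
  exact rate ha.pos hb.pos (ha.add_odd hb)

/-- **Rate of convergence in Cardy's formula for the slit strip, all parities.** -/
theorem cross_rate (hE : S_Exact) {a b : ℕ} (ha : 1 ≤ a) (hb : 1 ≤ b) :
    |perc.real (SCross a b) - cardyF ((a:ℝ) / (a + b))| ≤
      60 * ((min a b : ℕ) : ℝ) ^ (-(2/3) : ℝ) * ((a:ℝ) + b) ^ (-(1/3) : ℝ) := by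
  have pa : (1:ℝ) ≤ a := by exact_mod_cast ha
  have pb : (1:ℝ) ≤ b := by exact_mod_cast hb
  have hs : (0:ℝ) < (a:ℝ) + b := by linarith
  have key : ∀ a' b' : ℕ, Odd a' → Odd b' → |(a' : ℝ) - a| ≤ 1 → |(b' : ℝ) - b| ≤ 1 →
      a + b ≤ a' + b' + 1 → |perc.real (SCross a' b') - cardyF ((a:ℝ) / (a + b))| ≤
      60 * ((min a b : ℕ) : ℝ) ^ (-(2/3) : ℝ) * ((a:ℝ) + b) ^ (-(1/3) : ℝ) := by
    intro a' b' ha' hb' h1 h2 h3
    have k1 := cross_rate_odd hE ha' hb'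
    have k2 := F_near ha hb ha'.pos hb'.pos h1 h2
    rw [← scross_eq ha' b', cardyF_eq] at k1
    rw [cardyF_eq]
    have pa' : (1:ℝ) ≤ a' := by exact_mod_cast ha'.pos
    have pb' : (1:ℝ) ≤ b' := by exact_mod_cast hb'.pos
    rw [abs_le] at h1 h2
    have h3' : (a:ℝ) + b ≤ a' + b' + 1 := by exact_mod_cast h3
    set n : ℝ := ((min a b : ℕ) : ℝ) with hn
    set n' : ℝ := ((min a' b' : ℕ) : ℝ) with hn'
    have hn1 : 1 ≤ n := by rw [hn]; exact_mod_cast le_min ha hb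
    have hna : n ≤ a := by rw [hn]; exact_mod_cast min_le_left a b
    have hnb : n ≤ b := by rw [hn]; exact_mod_cast min_le_right a b
    have hnn : n / 2 ≤ n' := by
      rw [hn', Nat.cast_min, le_min_iff]
      constructor <;> linarith
    have t1 : n' ^ (-(2/3) : ℝ) ≤ (49/30) * n ^ (-(2/3) : ℝ) := by
      refine (rp_anti (by linarith) hnn).trans ?_
      rw [Real.div_rpow (by linarith) (by norm_num), Real.rpow_neg (by norm_num : (0:ℝ) ≤ 2),
        div_inv_eq_mul, mul_comm]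
      apply mul_le_mul_of_nonneg_right _ (by positivity)
      have e : (2:ℝ) ^ (2/3 : ℝ) = ((2:ℝ) ^ (2:ℝ)) ^ (1/3 : ℝ) := by
        rw [← Real.rpow_mul (by norm_num)]; norm_num
      have e2 : (49/30:ℝ) = ((49/30:ℝ) ^ (3:ℝ)) ^ (1/3 : ℝ) := by
        rw [← Real.rpow_mul (by norm_num)]; norm_num
      rw [e, e2]
      apply Real.rpow_le_rpow (by positivity) _ (by norm_num)
      norm_num
    have t2 : ((a':ℝ) + b' + 1) ^ (-(1/3) : ℝ) ≤ ((a:ℝ) + b) ^ (-(1/3) : ℝ) :=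
      Real.rpow_le_rpow_of_nonpos hs h3' (by norm_num)
    have t3 : 30 * n' ^ (-(2/3) : ℝ) * ((a':ℝ) + b' + 1) ^ (-(1/3) : ℝ) ≤
        49 * n ^ (-(2/3) : ℝ) * ((a:ℝ) + b) ^ (-(1/3) : ℝ) :=
      mul_le_mul (by linarith) t2 (by positivity) (by positivity)
    calc |perc.real (SCross a' b') - F ((a:ℝ) / (a + b))|
        ≤ |perc.real (SCross a' b') - F ((a':ℝ) / (a' + b'))| +
          |F ((a':ℝ) / (a' + b')) - F ((a:ℝ) / (a + b))| := abs_sub_le _ _ _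
      _ ≤ _ := by linarith
  have l1 : perc.real (SCross (od a) (ou b)) ≤ perc.real (SCross a b) :=
    (cross_mono_left (od_le (by omega)) _).trans (cross_anti_right a (le_ou b))
  have l2 : perc.real (SCross a b) ≤ perc.real (SCross (ou a) (od b)) :=
    (cross_mono_left (le_ou a) _).trans (cross_anti_right (ou a) (od_le (by omega)))
  have k1 := key (od a) (ou b) (od_odd a) (ou_odd b) (od_dist a) (ou_dist b) (by
    have := le_ou b
    have : a ≤ od a + 1 := by unfold od; split_ifs <;> omega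
    omega)
  have k2 := key (ou a) (od b) (ou_odd a) (od_odd b) (ou_dist a) (od_dist b) (by
    have := le_ou a
    have : b ≤ od b + 1 := by unfold od; split_ifs <;> omega
    omega)
  rw [abs_le] at k1 k2 ⊢
  constructor <;> linarith [k1.1, k1.2, k2.1, k2.2]

end Pool.Agent.H980R4.Rate
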