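import Pool.Agent.H980R4.Rate4
import Pool.Agent.H980R2.Unif.U4

/-! Slit rectangles, all parities: exponential decay of the vertical crossings of a diagonal strip
`c0 ≤ u - v ≤ c0 + L`, uniformly in the width, and comparison of the slit rectangle with the slit
strip. -/

namespace Pool.Agent.H980R4.Rect

open Pool.Agent.H988R2.Perc hiding X
open Finset MeasureTheory Relation
open Pool.Agent Pool.Agent.H980R2.Unif Pool.Agent.H980R2.Unif.U3 Pool.Agent.H863R4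

/-- an open path of the strip `c0 ≤ u - v ≤ c0 + L` joins the region `u + v ≤ s` to `u + v ≥ t` -/
def Vert (c0 : ℤ) (L : ℕ) (s t : ℤ) : Set Conf :=
  {ω | ∃ x y : ℤ × ℤ, x.1 + x.2 ≤ s ∧ t ≤ y.1 + y.2 ∧
    Relation.ReflTransGen (fun p r => OpenAdj ω p r ∧ c0 ≤ p.1 - p.2 ∧ p.1 - p.2 ≤ c0 + L ∧
      c0 ≤ r.1 - r.2 ∧ r.1 - r.2 ≤ c0 + L) x y}


/-- the part `|u + v - c| ≤ h` of the strip -/
def Sl (c0 : ℤ) (L : ℕ) (c : ℤ) (h : ℕ) (p : ℤ × ℤ) : Prop :=
  c0 ≤ p.1 - p.2 ∧ p.1 - p.2 ≤ c0 + L ∧ c - h ≤ p.1 + p.2 ∧ p.1 + p.2 ≤ c + h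

/-- bound of the coordinates -/
def Bd (c0 : ℤ) (L : ℕ) (c : ℤ) (h : ℕ) : ℤ := |c| + |c0| + h + L + 1

open Classical in
/-- the edges of the slab -/
noncomputable def SE (c0 : ℤ) (L : ℕ) (c : ℤ) (h : ℕ) : Finset H974.Edg :=
  (Icc (-(Bd c0 L c h)) (Bd c0 L c h) ×ˢ (Icc (-(Bd c0 L c h)) (Bd c0 L c h) ×ˢ (univ : Finset Bool))).filter
    (fun e => Sl c0 L c h (H974.src e) ∧ Sl c0 L c h (H974.tgt e))

theorem mem_SE {c0 : ℤ} {L : ℕ} {c : ℤ} {h : ℕ} {e : H974.Edg} :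
    e ∈ SE c0 L c h ↔ Sl c0 L c h (H974.src e) ∧ Sl c0 L c h (H974.tgt e) := by
  classical
  unfold SE
  rw [mem_filter]
  constructor
  · exact fun k => k.2
  · intro k
    refine ⟨?_, k⟩
    obtain ⟨x, y, b⟩ := e
    have h1 := k.1
    unfold Sl H974.src at h1
    simp only at h1
    have h2 := abs_nonneg c
    have h3 := neg_abs_le c
    have h4 := le_abs_self c
    have h5 := abs_nonneg c0
    have h6 := neg_abs_le c0
    have h7 := le_abs_self c0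
    simp only [mem_product, mem_Icc, mem_univ, and_true, Bd]
    omega

/-- a path of the strip visits every intermediate level -/
theorem level {c0 : ℤ} {L : ℕ} {ω : Conf} {c : ℤ} {x y : ℤ × ℤ}
    (h : ReflTransGen (fun p r => OpenAdj ω p r ∧ c0 ≤ p.1 - p.2 ∧ p.1 - p.2 ≤ c0 + L ∧
      c0 ≤ r.1 - r.2 ∧ r.1 - r.2 ≤ c0 + L) x y) (hx : x.1 + x.2 ≤ c) (hy : c < y.1 + y.2) :
    ∃ z : ℤ × ℤ, z.1 + z.2 = c ∧ c0 ≤ z.1 - z.2 ∧ z.1 - z.2 ≤ c0 + L ∧
      ReflTransGen (fun p r => OpenAdj ω p r ∧ c0 ≤ p.1 - p.2 ∧ p.1 - p.2 ≤ c0 + L ∧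
      c0 ≤ r.1 - r.2 ∧ r.1 - r.2 ≤ c0 + L) z y := by
  induction h using ReflTransGen.head_induction_on with
  | refl => omega
  | head h1 h2 ih =>
    rename_i p r
    by_cases hr : r.1 + r.2 ≤ c
    · exact ih hr
    · refine ⟨p, ?_, h1.2.1, h1.2.2.1, ReflTransGen.head h1 h2⟩
      have := h1.1
      unfold OpenAdj at this
      rcases this with ⟨e, -⟩ | ⟨e, -⟩ | ⟨e, -⟩ | ⟨e, -⟩ <;>
        (have e1 := congrArg Prod.fst e; have e2 := congrArg Prod.snd e; simp only at e1 e2; omega)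

/-- first exit of the slab -/
theorem exit {c0 : ℤ} {L : ℕ} {ω : Conf} {c : ℤ} {h : ℕ} {x y : ℤ × ℤ}
    (hp : ReflTransGen (fun p r => OpenAdj ω p r ∧ c0 ≤ p.1 - p.2 ∧ p.1 - p.2 ≤ c0 + L ∧
      c0 ≤ r.1 - r.2 ∧ r.1 - r.2 ≤ c0 + L) x y) (hx : x.1 + x.2 = c) :
    (y.1 + y.2 < c + h) ∧ (c - h < y.1 + y.2) ∧
      ReflTransGen (fun p r => OpenAdj ω p r ∧ Sl c0 L c h p ∧ Sl c0 L c h r) x y ∨ h = 0 ∨
    ∃ w : ℤ × ℤ, (c + h ≤ w.1 + w.2 ∨ w.1 + w.2 ≤ c - h) ∧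
      ReflTransGen (fun p r => OpenAdj ω p r ∧ Sl c0 L c h p ∧ Sl c0 L c h r) x w := by
  induction hp with
  | refl =>
    by_cases h0 : h = 0
    · exact Or.inr (Or.inl h0)
    · left
      exact ⟨by omega, by omega, ReflTransGen.refl⟩
  | tail h1 h2 ih =>
    rename_i p r
    rcases ih with ⟨k1, k2, k3⟩ | k | k
    · have hs : p.1 + p.2 - 1 ≤ r.1 + r.2 ∧ r.1 + r.2 ≤ p.1 + p.2 + 1 := by
        have := h2.1
        unfold OpenAdj at this
        rcases this with ⟨e, -⟩ | ⟨e, -⟩ | ⟨e, -⟩ | ⟨e, -⟩ <;> rw [e] <;> simp only <;> omega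
      have hstep : OpenAdj ω p r ∧ Sl c0 L c h p ∧ Sl c0 L c h r :=
        ⟨h2.1, ⟨h2.2.1, h2.2.2.1, by omega, by omega⟩, ⟨h2.2.2.2.1, h2.2.2.2.2, by omega, by omega⟩⟩
      by_cases hr : r.1 + r.2 < c + h ∧ c - h < r.1 + r.2
      · left
        exact ⟨hr.1, hr.2, k3.tail hstep⟩
      · right; right
        exact ⟨r, by omega, k3.tail hstep⟩
    · exact Or.inr (Or.inl k)
    · exact Or.inr (Or.inr k)

/-- paths of the slab in terms of the edges of the slab -/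
theorem toReach {c0 : ℤ} {L : ℕ} {ω : Conf} {c : ℤ} {h : ℕ} {x y : ℤ × ℤ} {U : Finset H974.Edg}
    (hU : SE c0 L c h ⊆ U)
    (hp : ReflTransGen (fun p r => OpenAdj ω p r ∧ Sl c0 L c h p ∧ Sl c0 L c h r) x y) :
    H974.Reach (↑(tB U ω ∩ SE c0 L c h) : Set H974.Edg) x y := by
  unfold H974.Reach
  refine ReflTransGen.mono ?_ x y hp
  rintro p r ⟨k, k1, k2⟩
  have key : ∀ e : H974.Edg, (H974.src e = p ∧ H974.tgt e = r) ∨ (H974.src e = r ∧ H974.tgt e = p) →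
      ω (eB e) = true → H974.Adj (↑(tB U ω ∩ SE c0 L c h) : Set H974.Edg) p r := by
    intro e he ho
    refine ⟨e, ?_, he⟩
    have hm : e ∈ SE c0 L c h := by
      rw [mem_SE]
      rcases he with ⟨e1, e2⟩ | ⟨e1, e2⟩
      · rw [e1, e2]; exact ⟨k1, k2⟩
      · rw [e1, e2]; exact ⟨k2, k1⟩
    rw [Finset.mem_coe, mem_inter]
    refine ⟨?_, hm⟩
    unfold tB
    rw [mem_filter]
    exact ⟨hU hm, ho⟩
  unfold OpenAdj at k
  rcases k with ⟨e, k⟩ | ⟨e, k⟩ | ⟨e, k⟩ | ⟨e, k⟩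
  · refine key (p.1, p.2, true) (Or.inl ⟨rfl, ?_⟩) k
    rw [e]; rfl
  · refine key (r.1, r.2, true) (Or.inr ⟨rfl, ?_⟩) k
    rw [e]; rfl
  · refine key (p.1, p.2, false) (Or.inl ⟨rfl, ?_⟩) k
    rw [e]; rfl
  · refine key (r.1, r.2, false) (Or.inr ⟨rfl, ?_⟩) k
    rw [e]; rfl

/-- the slab event -/
def A (c0 : ℤ) (L : ℕ) (c : ℤ) (h m : ℕ) (F : Finset H974.Edg) : Prop :=
  ∃ x ∈ Kb ((c + c0) / 2) (c - (c + c0) / 2) m,
    H974.RB H974.src H974.tgt (Bb ((c + c0) / 2) (c - (c + c0) / 2) m) (↑(F ∩ SE c0 L c h) : Set H974.Edg) x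

theorem A_local {c0 : ℤ} {L : ℕ} {c : ℤ} {h m : ℕ} {F T : Finset H974.Edg} (hT : SE c0 L c h ⊆ T) :
    A c0 L c h m F ↔ A c0 L c h m (F ∩ T) := by
  unfold A
  have : F ∩ T ∩ SE c0 L c h = F ∩ SE c0 L c h := by
    rw [inter_assoc, inter_eq_right.mpr hT]
  rw [this]

theorem pr_A {c0 : ℤ} {L : ℕ} {c : ℤ} {h m : ℕ} (hm : 5 ≤ m) :
    H974.Pr (fun _ => (1/2 : ℝ)) (SE c0 L c h) (A c0 L c h m) ≤ 1 - (1/2 : ℝ)^188 := by
  have h1 := u4_prob hm ((c + c0)/2) (c - (c + c0)/2) (SE c0 L c h)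
  refine le_trans (le_of_eq ?_) h1
  apply H974.Pr_congr
  intro F hF
  unfold A
  rw [inter_eq_left.mpr hF]

/-- the centers -/
def ce (L : ℕ) (s : ℤ) (i : ℕ) : ℤ := s + 100 * L * i + 50 * L

/-- half height -/
def hh (L : ℕ) : ℕ := 6 * (L + 5)

/-- the union of the slabs -/
noncomputable def UU (c0 : ℤ) (L : ℕ) (s : ℤ) (j : ℕ) : Finset H974.Edg :=
  (range j).biUnion (fun i => SE c0 L (ce L s i) (hh L))

theorem sub_UU {c0 : ℤ} {L : ℕ} {s : ℤ} {i j : ℕ} (h : i < j) : SE c0 L (ce L s i) (hh L) ⊆ UU c0 L s j :=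
  subset_biUnion_of_mem (fun i => SE c0 L (ce L s i) (hh L)) (mem_range.mpr h)

theorem disj (c0 : ℤ) {L : ℕ} (hL : 1 ≤ L) (s : ℤ) (j : ℕ) :
    Disjoint (UU c0 L s j) (SE c0 L (ce L s j) (hh L)) := by
  rw [Finset.disjoint_left]
  intro e he he'
  unfold UU at he
  rw [mem_biUnion] at he
  obtain ⟨i, hi, he⟩ := he
  rw [mem_range] at hi
  rw [mem_SE] at he he'
  have h1 := he.1
  have h2 := he'.1
  unfold Sl ce hh at h1 h2
  have h3 : (i : ℤ) + 1 ≤ j := by exact_mod_cast hi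
  have h4 : (L : ℤ) * (i + 1) ≤ L * j := mul_le_mul_of_nonneg_left h3 (by positivity)
  have h5 : (100 : ℤ) * L * i = 100 * (L * i) := by ring
  have h6 : (100 : ℤ) * L * j = 100 * (L * j) := by ring
  rw [h5] at h1
  rw [h6] at h2
  push_cast at h1 h2
  have hL' : (1 : ℤ) ≤ L := by exact_mod_cast hL
  have h7 : (L : ℤ) * (i + 1) = L * i + L := by ring
  rw [h7] at h4
  omega

theorem UU_succ (c0 : ℤ) (L : ℕ) (s : ℤ) (j : ℕ) :
    UU c0 L s (j+1) = UU c0 L s j ∪ SE c0 L (ce L s j) (hh L) := by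
  unfold UU
  rw [range_add_one, biUnion_insert, union_comm]

theorem prod_bound (c0 : ℤ) {L : ℕ} (hL : 1 ≤ L) (s : ℤ) (j : ℕ) :
    H974.Pr (fun _ => (1/2 : ℝ)) (UU c0 L s j)
      (fun F => ∀ i < j, A c0 L (ce L s i) (hh L) (L+5) F) ≤ (1 - (1/2 : ℝ)^188)^j := by
  have ok := H974.okq (q := 1/2) (by norm_num) (by norm_num)
  induction j with
  | zero =>
    rw [pow_zero]
    exact H974.Pr_le_one ok _ _
  | succ j ih =>
    have e1 : H974.Pr (fun _ => (1/2 : ℝ)) (UU c0 L s (j+1))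
        (fun F => ∀ i < j+1, A c0 L (ce L s i) (hh L) (L+5) F) =
        H974.Pr (fun _ => (1/2 : ℝ)) (UU c0 L s (j+1))
          (fun F => (∀ i < j, A c0 L (ce L s i) (hh L) (L+5) F) ∧ A c0 L (ce L s j) (hh L) (L+5) F) := by
      apply H974.Pr_congr
      intro F _
      constructor
      · intro h
        exact ⟨fun i hi => h i (by omega), h j (by omega)⟩
      · rintro ⟨h1, h2⟩ i hi
        rcases Nat.lt_or_ge i j with h | h
        · exact h1 i h
        · have : i = j := by omega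
          rw [this]; exact h2
    have hS : UU c0 L s j ⊆ UU c0 L s (j+1) := by rw [UU_succ]; exact subset_union_left
    have hT : SE c0 L (ce L s j) (hh L) ⊆ UU c0 L s (j+1) := sub_UU (Nat.lt_succ_self j)
    have l1 : ∀ F, F ⊆ UU c0 L s (j+1) → ((∀ i < j, A c0 L (ce L s i) (hh L) (L+5) F) ↔
        (∀ i < j, A c0 L (ce L s i) (hh L) (L+5) (F ∩ UU c0 L s j))) := by
      intro F _
      exact forall_congr' fun i => forall_congr' fun hi => A_local (sub_UU hi)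
    have l2 : ∀ F, F ⊆ UU c0 L s (j+1) → (A c0 L (ce L s j) (hh L) (L+5) F ↔
        A c0 L (ce L s j) (hh L) (L+5) (F ∩ SE c0 L (ce L s j) (hh L))) := by
      intro F _
      exact A_local (Subset.refl _)
    rw [e1, H974.Pr_indep hS hT (disj c0 hL s j) l1 l2, H974.Pr_local hS l1, H974.Pr_local hT l2,
      pow_succ]
    exact mul_le_mul ih (pr_A (by omega)) (H974.Pr_nonneg ok _ _) (by
      apply pow_nonneg
      have : ((1:ℝ)/2)^188 ≤ 1 := pow_le_one₀ (by norm_num) (by norm_num)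
      linarith)

/-- a vertical crossing crosses all the slabs -/
theorem vert_sub (c0 : ℤ) {L : ℕ} (hL : 1 ≤ L) (s : ℤ) (j : ℕ) :
    Vert c0 L s (s + 100 * L * j) ⊆
      {ω | ∀ i < j, A c0 L (ce L s i) (hh L) (L+5) (tB (UU c0 L s j) ω)} := by
  rintro ω ⟨x, y, hx, hy, hp⟩ i hi
  have hL' : (1 : ℤ) ≤ L := by exact_mod_cast hL
  have h3 : (i : ℤ) + 1 ≤ j := by exact_mod_cast hi
  have h4 : (L : ℤ) * (i + 1) ≤ L * j := mul_le_mul_of_nonneg_left h3 (by positivity)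
  have h5 : (100 : ℤ) * L * i = 100 * (L * i) := by ring
  have h6 : (100 : ℤ) * L * j = 100 * (L * j) := by ring
  have h7 : (L : ℤ) * (i + 1) = L * i + L := by ring
  have h8 : (0 : ℤ) ≤ L * i := by positivity
  rw [h7] at h4
  rw [h6] at hy
  have hce : ce L s i = s + 100 * (L * i) + 50 * L := by unfold ce; rw [h5]
  obtain ⟨z, z1, z2, z3, z4⟩ := level (c := ce L s i) hp (by rw [hce]; omega) (by rw [hce]; omega)
  rcases exit (h := hh L) z4 z1 with ⟨k1, -, -⟩ | k | ⟨w, k1, k2⟩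
  · exfalso
    unfold hh at k1
    rw [hce] at k1
    push_cast at k1
    omega
  · exfalso
    unfold hh at k
    omega
  · refine ⟨z, ?_, w, ?_, toReach (sub_UU hi) k2⟩
    · rw [u4_mem_Kb]
      push_cast
      generalize ce L s i = c at *
      omega
    · unfold Bb hh at *
      push_cast at k1 ⊢
      generalize ce L s i = c at *
      change 3 * ((L : ℤ) + 5) ≤ |w.1 - (c + c0) / 2| ∨ 3 * ((L : ℤ) + 5) ≤ |w.2 - (c - (c + c0) / 2)|
      rw [le_abs, le_abs]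
      omega

/-- the probability of an event depending on finitely many edges -/
theorem perc_tB (U : Finset H974.Edg) (P : Finset H974.Edg → Prop) :
    perc {ω | P (tB U ω)} = ENNReal.ofReal (H974.Pr (fun _ => (1/2 : ℝ)) U P) := by
  classical
  have hmeas : MeasurableSet {ω : Conf | P (tB U ω)} := by
    have : {ω : Conf | P (tB U ω)} = ⋃ t ∈ U.powerset.filter P, {ω : Conf | tB U ω = t} := by
      ext ω
      simp only [Set.mem_iUnion, mem_filter, exists_prop]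
      constructor
      · intro h
        exact ⟨tB U ω, ⟨mem_powerset.mpr (filter_subset _ _), h⟩, rfl⟩
      · rintro ⟨t, ⟨_, h⟩, h'⟩
        have h'' : tB U ω = t := h'
        change P (tB U ω)
        rw [h'']; exact h
    rw [this]
    refine Finset.measurableSet_biUnion _ fun t ht => ?_
    rw [mem_filter, mem_powerset] at ht
    exact measurableSet_cell ht.1
  have h1 := ex_eq U (fun ω => H974.ind (P (tB U ω))) (by
    intro ω ω' h
    have : tB U ω = tB U ω' := by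
      unfold tB
      apply filter_congr
      intro e he
      rw [h (eB e) (by unfold eB; simpa using he)]
    simp only [this])
  have h2 : ∫ ω, H974.ind (P (tB U ω)) ∂perc = perc.real {ω | P (tB U ω)} := by
    have : (fun ω => H974.ind (P (tB U ω))) =
        Set.indicator {ω : Conf | P (tB U ω)} (fun _ => (1:ℝ)) := by
      funext ω
      by_cases h : P (tB U ω)
      · rw [H974.ind_of h, Set.indicator_of_mem (show ω ∈ {ω : Conf | P (tB U ω)} from h)]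
      · rw [H974.ind_not_of h, Set.indicator_of_notMem (show ω ∉ {ω : Conf | P (tB U ω)} from h)]
    rw [this, integral_indicator_const _ hmeas]
    simp
  have h3 : perc.real {ω | P (tB U ω)} = H974.Pr (fun _ => (1/2 : ℝ)) U P := by
    rw [← h2, h1.1]
    unfold H974.Pr
    apply H974.Ex_congr
    intro F hF
    congr 2
    ext e
    unfold tB
    rw [mem_filter]
    unfold cf eB
    simp only [Bool.not_not, decide_eq_true_eq, Prod.mk.eta]
    exact ⟨fun k => k.2, fun k => ⟨hF k, k⟩⟩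
  rw [← h3, ofReal_measureReal]

/-- decay of the vertical crossings -/
theorem decay (c0 : ℤ) (L : ℕ) (s : ℤ) (j : ℕ) (hL : 1 ≤ L) :
    perc (Vert c0 L s (s + 100 * L * j)) ≤ ENNReal.ofReal ((1 - (1/2 : ℝ)^188)^j) := by
  refine (measure_mono (vert_sub c0 hL s j)).trans ?_
  refine (perc_tB (UU c0 L s j) (fun F => ∀ i < j, A c0 L (ce L s i) (hh L) (L+5) F)).le.trans ?_
  exact ENNReal.ofReal_le_ofReal (prod_bound c0 hL s j)

theorem vert_anti (c0 : ℤ) (L : ℕ) (s : ℤ) {t t' : ℤ} (h : t ≤ t') :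
    Vert c0 L s t' ⊆ Vert c0 L s t := by
  rintro ω ⟨x, y, hx, hy, hp⟩
  exact ⟨x, y, hx, h.trans hy, hp⟩

theorem vert_real (c0 : ℤ) {L : ℕ} (hL : 1 ≤ L) (s : ℤ) (H : ℕ) :
    perc.real (Vert c0 L s (s + H)) ≤ (1 - (1/2 : ℝ)^188)^(H / (100 * L)) := by
  have h1 : s + 100 * (L:ℤ) * ((H / (100 * L) : ℕ) : ℤ) ≤ s + H := by
    have : 100 * L * (H / (100 * L)) ≤ H := Nat.mul_div_le H (100 * L)
    have h2 : (100 : ℤ) * L * ((H / (100 * L) : ℕ) : ℤ) ≤ H := by exact_mod_cast this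
    linarith
  have h2 := (measure_mono (μ := perc) (vert_anti c0 L s h1)).trans
    (decay c0 L s (H / (100 * L)) hL)
  have h0 : (0:ℝ) ≤ (1 - (1/2 : ℝ)^188)^(H / (100 * L)) := by
    apply pow_nonneg
    have : ((1:ℝ)/2)^188 ≤ 1 := pow_le_one₀ (by norm_num) (by norm_num)
    linarith
  exact ENNReal.toReal_le_of_le_ofReal h0 h2

/-! ### the slit rectangle -/

/-- the left bank `u = v ≥ 0` of the slit is joined, inside the slit rectangle
`-a ≤ u - v ≤ b + 1`, `|u + v| ≤ H`, to the right side `u - v = b+1` -/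
def SCrossH (a b H : ℕ) : Set Conf :=
  {ω | ∃ x y : ℤ × ℤ, x.1 - x.2 = 0 ∧ 0 ≤ x.1 + x.2 ∧ x.1 + x.2 ≤ H ∧ y.1 - y.2 = b + 1 ∧
    Relation.ReflTransGen (fun p r => SAdj a b ω p r ∧ |p.1 + p.2| ≤ H ∧ |r.1 + r.2| ≤ H) x y}

theorem scrossH_sub (a b H : ℕ) : SCrossH a b H ⊆ SCross a b := by
  rintro ω ⟨x, y, h1, h2, -, h3, h4⟩
  exact ⟨x, y, h1, h2, h3, Relation.ReflTransGen.mono (fun p r h => h.1) _ _ h4⟩

/-- open adjacency inside the strip -/
def SS (c0 : ℤ) (L : ℕ) (ω : Conf) (p r : ℤ × ℤ) : Prop :=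
  OpenAdj ω p r ∧ c0 ≤ p.1 - p.2 ∧ p.1 - p.2 ≤ c0 + L ∧ c0 ≤ r.1 - r.2 ∧ r.1 - r.2 ≤ c0 + L

theorem open_symm {ω : Conf} {p r : ℤ × ℤ} (h : OpenAdj ω p r) : OpenAdj ω r p := by
  unfold OpenAdj at h ⊢
  tauto

theorem SS_symm {c0 : ℤ} {L : ℕ} {ω : Conf} {p r : ℤ × ℤ}
    (h : Relation.ReflTransGen (SS c0 L ω) p r) : Relation.ReflTransGen (SS c0 L ω) r p := by
  induction h with
  | refl => exact Relation.ReflTransGen.refl
  | tail _ h2 ih =>
    exact Relation.ReflTransGen.head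
      ⟨open_symm h2.1, h2.2.2.2.1, h2.2.2.2.2, h2.2.1, h2.2.2.1⟩ ih

theorem SS_of {a b : ℕ} {ω : Conf} {p r : ℤ × ℤ}
    (h : Relation.ReflTransGen (SAdj a b ω) p r) :
    Relation.ReflTransGen (SS (-(a:ℤ)) (a+b+1) ω) p r := by
  refine Relation.ReflTransGen.mono ?_ _ _ h
  rintro x y ⟨h1, h2, h3, h4, h5, -⟩
  refine ⟨h1, h2, ?_, h4, ?_⟩ <;> push_cast <;> linarith

theorem low {a b : ℕ} {ω : Conf} {x y : ℤ × ℤ} (hx : x.1 - x.2 ≤ 0)
    (h : Relation.ReflTransGen (SAdj a b ω) x y) :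
    y.1 - y.2 ≤ 0 ∨ ∃ z : ℤ × ℤ, z.1 + z.2 ≤ 0 ∧
      Relation.ReflTransGen (SAdj a b ω) x z := by
  induction h with
  | refl => exact Or.inl hx
  | @tail y' y'' h1 h2 ih =>
    rcases ih with ih | ih
    · by_cases c1 : y'.1 + y'.2 ≤ 0
      · exact Or.inr ⟨y', c1, h1⟩
      · by_cases c2 : y''.1 + y''.2 ≤ 0
        · exact Or.inr ⟨y'', c2, h1.tail h2⟩
        · left
          by_contra c3
          exact h2.2.2.2.2.2 ⟨by omega, by omega, Or.inl ⟨ih, by omega⟩⟩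
    · exact Or.inr ih

theorem scrossH_diff (a b H : ℕ) :
    SCross a b \ SCrossH a b H ⊆
      Vert (-(a:ℤ)) (a+b+1) 0 H ∪ Vert (-(a:ℤ)) (a+b+1) (-(H:ℤ)) 0 := by
  rintro ω ⟨⟨x, y, hx1, hx2, hy, hr⟩, hn⟩
  by_contra hV
  rw [Set.mem_union, not_or] at hV
  obtain ⟨hV1, hV2⟩ := hV
  obtain ⟨z, hz, hxz⟩ : ∃ z : ℤ × ℤ, z.1 + z.2 ≤ 0 ∧
      Relation.ReflTransGen (SAdj a b ω) x z := by
    rcases low (le_of_eq hx1) hr with h | h
    · exfalso
      rw [hy] at h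
      omega
    · exact h
  have hb : ∀ p : ℤ × ℤ, Relation.ReflTransGen (SAdj a b ω) x p →
      |p.1 + p.2| ≤ H := by
    intro p hp
    have hp' := SS_of hp
    have hz' := SS_symm (SS_of hxz)
    rw [abs_le]
    constructor
    · by_contra hc
      exact hV2 ⟨p, x, by omega, by omega, SS_symm hp'⟩
    · by_contra hc
      exact hV1 ⟨z, p, hz, by omega, hz'.trans hp'⟩
  apply hn
  refine ⟨x, y, hx1, hx2, ?_, hy, ?_⟩
  · have := hb x Relation.ReflTransGen.refl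
    exact (le_abs_self _).trans this
  · clear hy
    induction hr with
    | refl => exact Relation.ReflTransGen.refl
    | tail h1 h2 ih => exact ih.tail ⟨h2, hb _ h1, hb _ (h1.tail h2)⟩

/-- comparison of the slit rectangle with the slit strip, all parities -/
theorem rect_strip (a b H : ℕ) :
    |perc.real (SCrossH a b H) - perc.real (SCross a b)| ≤
      2 * (1 - (1/2 : ℝ)^188)^(H / (100 * (a + b + 1))) := by
  have h0 : perc.real (SCrossH a b H) ≤ perc.real (SCross a b) := measureReal_mono (scrossH_sub a b H)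
  have h1 : SCross a b ⊆ SCrossH a b H ∪
      (Vert (-(a:ℤ)) (a+b+1) 0 H ∪ Vert (-(a:ℤ)) (a+b+1) (-(H:ℤ)) 0) := by
    intro ω hω
    by_cases hc : ω ∈ SCrossH a b H
    · exact Or.inl hc
    · exact Or.inr (scrossH_diff a b H ⟨hω, hc⟩)
  have h2 : perc.real (SCross a b) ≤ perc.real (SCrossH a b H) +
      (perc.real (Vert (-(a:ℤ)) (a+b+1) 0 H) + perc.real (Vert (-(a:ℤ)) (a+b+1) (-(H:ℤ)) 0)) :=
    (measureReal_mono h1).trans ((measureReal_union_le _ _).trans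
      (add_le_add_right (measureReal_union_le _ _) _))
  have h3 := vert_real (-(a:ℤ)) (L := a+b+1) (by omega) 0 H
  have h4 := vert_real (-(a:ℤ)) (L := a+b+1) (by omega) (-(H:ℤ)) H
  rw [zero_add] at h3
  rw [neg_add_cancel] at h4
  rw [abs_le]
  have h5 : (0:ℝ) ≤ (1 - (1/2 : ℝ)^188)^(H / (100 * (a + b + 1))) := measureReal_nonneg.trans h3
  constructor <;> linarith

/-- **Cardy's formula in slit rectangles with explicit error bounds, all parities.** -/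
theorem rect_rate (hE : H31C.S_Exact) {a b : ℕ} (ha : 1 ≤ a) (hb : 1 ≤ b) (H : ℕ) :
    |perc.real (SCrossH a b H) - cardyF ((a:ℝ) / (a + b))| ≤
      60 * ((min a b : ℕ) : ℝ) ^ (-(2/3) : ℝ) * ((a:ℝ) + b) ^ (-(1/3) : ℝ) +
      2 * (1 - (1/2 : ℝ)^188)^(H / (100 * (a + b + 1))) := by
  have h1 := Rate.cross_rate hE ha hb
  have h2 := rect_strip a b H
  have h3 := abs_sub_le (perc.real (SCrossH a b H)) (perc.real (SCross a b))
    (cardyF ((a:ℝ) / (a + b)))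
  linarith

end Pool.Agent.H980R4.Rect
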